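import Pool.Agent.H132.LG.Ord

/-!
# Lattice knots under a large stretching force: the exact order

Words over the six unit directions describe lattice walks (the last letter is the first step),
`KN.SAP` are the closed self-avoiding words, `KN.KT k` the closed words of the knot type of the
polygon `k`, `KN.K Q n` the closed self-avoiding words of length `n` in the class `Q`.
-/

set_option autoImplicit false

namespace Pool.Agent.Results.MP_aea6d5_co.StretchedOrder

open KN KN.KQ Filter Topology
open scoped Classical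

noncomputable section

/-- the extent of a word in the direction of the first axis -/
def span (w : List Dir) : ℕ :=
  ((path w).toFinset ×ˢ (path w).toFinset).sup (fun x => (x.1.1 - x.2.1).natAbs)

/-- the partition function of the polygons of length `n` (up to translation) of the knot type of
`k` that are stretched along the first axis: the sum of `y ^ extent`; every polygon corresponds to
`2 n` words -/
def Z (y : ℝ) (k : List V) (n : ℕ) : ℝ := (∑ w ∈ K (KT k) n, y ^ span w) / (2 * n)

/-- `k` is a connected sum of `N` nontrivial knots -/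
def SumOf : ℕ → List V → Prop
  | 0, k => Same k sq
  | N + 1, k => ∃ k' l : List V, SumOf N k' ∧ ¬ Same l sq ∧ IsSum k' l k

/-- `N` is the largest number of nontrivial knots whose connected sum is `k` -/
def Factors (k : List V) (N : ℕ) : Prop := SumOf N k ∧ ∀ M, SumOf M k → M ≤ N

theorem sumOf_iff (N : ℕ) : ∀ k : List V, SumOf N k ↔ KN.ST.SumN N k := by
  induction N with
  | zero => intro k; exact Iff.rfl
  | succ N ih =>
    intro k
    simp only [SumOf, KN.ST.SumN, ih]

theorem factors_iff (k : List V) (N : ℕ) : Factors k N ↔ KN.ST.MaxN k N := by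
  simp only [Factors, KN.ST.MaxN, sumOf_iff]

theorem Z_eq (y : ℝ) (k : List V) (n : ℕ) : Z y k n = KN.ST.Sr y k n / (2 * n) := rfl

/-- At large stretching force the weighted number of polygons of a knot type with `N` prime
factors is of the exact order `n ^ (N - 1) μ ^ n / (log n) ^ 2`, with the same `μ` for all knot
types. It is not asymptotic to `A n ^ (α - 3) g ^ n`, for any constants. -/
theorem result : ∃ y₁ : ℝ, 0 < y₁ ∧ ∀ y : ℝ, y₁ ≤ y → ∃ μ : ℝ, 0 < μ ∧
    ∀ (k : List V) (N : ℕ), Factors k N →
      (∃ c C : ℝ, 0 < c ∧ 0 < C ∧ ∀ᶠ j : ℕ in atTop,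
        c * ((2 * j : ℝ) ^ ((N : ℝ) - 1) * μ ^ (2 * j) / Real.log (2 * j) ^ 2) ≤ Z y k (2 * j) ∧
        Z y k (2 * j) ≤ C * ((2 * j : ℝ) ^ ((N : ℝ) - 1) * μ ^ (2 * j) / Real.log (2 * j) ^ 2)) ∧
      ∀ A α g : ℝ, 0 < A → 0 < g →
        ¬ Tendsto (fun j : ℕ => Z y k (2 * j) / ((2 * j : ℝ) ^ (α - 3) * g ^ (2 * j))) atTop
          (𝓝 A) := by
  obtain ⟨y₀, hy₀, h₀⟩ := KN.ST.exact_order
  obtain ⟨y₁, hy₁, h₁⟩ := KN.ST.no_power_law
  refine ⟨max y₀ y₁, by positivity, fun y hy => ?_⟩
  obtain ⟨μ, hμ, h⟩ := h₀ y ((le_max_left _ _).trans hy)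
  refine ⟨μ, hμ, fun k N hk => ?_⟩
  have hk' := (factors_iff k N).1 hk
  refine ⟨?_, fun A α g hA hg => h₁ y ((le_max_right _ _).trans hy) k N hk' A α g hA hg⟩
  obtain ⟨c, C, hc, hC, h2⟩ := h k N hk'
  refine ⟨c / 2, C / 2, by positivity, by positivity, ?_⟩
  filter_upwards [h2, eventually_ge_atTop 1] with j h3 h4
  have hj : (1 : ℝ) ≤ j := by exact_mod_cast h4
  have hx : (0 : ℝ) < 2 * j := by linarith
  rw [Z_eq, Real.rpow_sub hx, Real.rpow_natCast, Real.rpow_one]
  push_cast
  constructor
  · rw [le_div_iff₀ (by positivity)]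
    refine le_trans (le_of_eq ?_) h3.1
    field_simp
  · rw [div_le_iff₀ (by positivity)]
    refine h3.2.trans (le_of_eq ?_)
    field_simp

end

end Pool.Agent.Results.MP_aea6d5_co.StretchedOrder
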