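import Pool.Agent.H132.TB.Fn3

/-!
# Lattice knots in a tube under a large stretching force: the sharp asymptotic form

Words over the six unit directions describe lattice walks (the last letter is the first step),
`KN.SAP` are the closed self-avoiding words, `KN.KT k` the closed words of the knot type of the
polygon `k`, `KN.K Q n` the closed self-avoiding words of length `n` in the class `Q`.
-/

set_option autoImplicit false

namespace Pool.Agent.Results.MP_aea6d5_co.TubesSharpForm

open KN KN.KQ Filter Topology Finset
open scoped Classical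

noncomputable section

/-- the extent of a word in the direction of the first axis -/
def span (w : List Dir) : ℕ :=
  ((path w).toFinset ×ˢ (path w).toFinset).sup (fun x => (x.1.1 - x.2.1).natAbs)

/-- the tube `ℤ × [0, L] × [0, M]` -/
def InTube (L M : ℕ) (p : Z3) : Prop := 0 ≤ p.2.1 ∧ p.2.1 ≤ L ∧ 0 ≤ p.2.2 ∧ p.2.2 ≤ M

/-- the number of the starting points `(0, a, b)` in the tube for which the walk stays in the
tube -/
def places (L M : ℕ) (w : List Dir) : ℕ :=
  ((range (L + 1) ×ˢ range (M + 1)).filter
    (fun a => ∀ p ∈ path w, InTube L M (((0 : ℤ), (a.1 : ℤ), (a.2 : ℤ)) + p))).card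

/-- the partition function of the polygons of length `n` in the tube (up to translation along the
tube) of the knot type of `k`: the sum of `y ^ extent`; every polygon corresponds to `2 n` pairs of
a word and a starting point -/
def Z (L M : ℕ) (y : ℝ) (k : List V) (n : ℕ) : ℝ :=
  (∑ w ∈ K (KT k) n, (places L M w : ℝ) * y ^ span w) / (2 * n)

/-- some polygon in the tube has the knot type of `t` -/
def Realized (L M : ℕ) (t : List V) : Prop := ∃ w, SAP w ∧ KT t w ∧ 0 < places L M w

/-- `k` is a connected sum of `N` nontrivial knots, each of which is realized in the tube -/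
def SumOf (L M : ℕ) : ℕ → List V → Prop
  | 0, k => Same k sq
  | N + 1, k => ∃ k' t : List V, SumOf L M N k' ∧ ¬ Same t sq ∧ Realized L M t ∧ IsSum k' t k

/-- `N` is the largest number of nontrivial knots realized in the tube whose connected sum is
`k` -/
def Factors (L M : ℕ) (k : List V) (N : ℕ) : Prop :=
  SumOf L M N k ∧ ∀ i, SumOf L M i k → i ≤ N

theorem places_eq (L M : ℕ) (w : List Dir) : places L M w = KN.ST.Np L M w := by
  unfold places KN.ST.Np KN.ST.Rct
  rw [Finset.filter_image, Finset.card_image_of_injective]
  · rfl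
  · intro a b h
    simp only [Prod.mk.injEq, true_and, Nat.cast_inj] at h
    exact Prod.ext h.1 h.2

theorem sumOf_iff (L M N : ℕ) : ∀ k : List V, SumOf L M N k ↔ KN.ST.TS L M N k := by
  induction N with
  | zero => intro k; exact Iff.rfl
  | succ N ih =>
    intro k
    simp only [SumOf, KN.ST.TS, ih, KN.ST.inT_iff, Realized, places_eq]

/-- At stretching force `y > 1296` the weighted number of polygons in the tube of every knot type
with `N` prime factors is asymptotic to `A n ^ N μ ^ n`, with the same `μ` for all knot types. -/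
theorem result (L M : ℕ) (hL : 1 ≤ L) (hM : 1 ≤ M) (y : ℝ) (hy : 1296 < y) :
    ∃ μ : ℝ, 0 < μ ∧ ∀ (k : List V) (N : ℕ), Factors L M k N → ∃ A : ℝ, 0 < A ∧
      Tendsto (fun j : ℕ => Z L M y k (2 * j) / ((2 * j : ℝ) ^ N * μ ^ (2 * j))) atTop (𝓝 A) := by
  obtain ⟨μ, hμ, h⟩ := KN.ST.tube_main (L := L) (M := M) hy hL hM
  refine ⟨μ, hμ, fun k N hk => ?_⟩
  obtain ⟨A, hA, hT⟩ := h k N ((sumOf_iff L M N k).1 hk.1)
    (fun i hi => hk.2 i ((sumOf_iff L M i k).2 hi))
  refine ⟨A, hA, hT.congr fun j => ?_⟩
  unfold Z KN.ST.ST'
  simp only [places_eq]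
  rfl

end

end Pool.Agent.Results.MP_aea6d5_co.TubesSharpForm
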